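import Pool.Agent.L7h71.GB.Stm

/-! Project GB, part FTH: structures with the same code are isomorphic. -/

set_option autoImplicit false

namespace Pool.Agent.L7h96.GB

open Set Function MeasureTheory
open Pool.Agent.L7h66.UA (XS XIso)
open Pool.Agent.L7h71.GB

variable {a : ℕ → ℕ} {K : ℕ → Type}

theorem pres_ne {𝓖 : FamG a K} {M : XS a K ℕ} {ρ : ℕ → ℕ} (h : Pres 𝓖 M ρ) (i : ℕ) : lst (ρ i) ≠ [] := by
  obtain ⟨y, _, hy, _⟩ := h.prime i
  intro h0
  rw [h0] at hy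
  simp at hy

/-- finite pieces -/
theorem piece (hT : S_TAU) [∀ i, MeasurableSpace (K i)] [∀ i, StandardBorelSpace (K i)]
    {𝓖 : FamG a K} {M N : XS a K ℕ} {ρ ρ' : ℕ → ℕ} (hM : Pres 𝓖 M ρ) (hN : Pres 𝓖 N ρ')
    (h : cod M ρ = cod N ρ') (t : ℕ) : ∃ e : ℕ → ℕ, Emb M N e {p | ∃ i ≤ t, p ∈ lst (ρ i)} ∧
      ∀ i ≤ t, ((lst (ρ i)).map e).Perm (lst (ρ' i)) := by
  have h1 := congrFun (congrFun h t) (fun j : Fin (t + 1) => (j : ℕ))
  unfold cod at h1
  have h2 := (hT a K M N (List.ofFn fun j : Fin (t + 1) => lst (ρ j)) (List.ofFn fun j : Fin (t + 1) => lst (ρ' j))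
    (by simp) (by simp) (by
      intro l hl
      rw [List.mem_ofFn] at hl
      obtain ⟨j, rfl⟩ := hl
      exact pres_ne hM _) (by
      intro l hl
      rw [List.mem_ofFn] at hl
      obtain ⟨j, rfl⟩ := hl
      exact pres_ne hN _)).1 h1
  obtain ⟨e, he, hp⟩ := h2
  refine ⟨e, ?_, ?_⟩
  · convert he using 1
    ext p
    simp only [mem_ofPred_eq, List.mem_ofFn]
    constructor
    · rintro ⟨i, hi, hp⟩
      exact ⟨_, ⟨⟨i, by omega⟩, rfl⟩, hp⟩
    · rintro ⟨l, ⟨j, rfl⟩, hp⟩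
      exact ⟨j, by omega, hp⟩
  · intro i hi
    rw [List.forall₂_iff_get] at hp
    have h3 := hp.2 i (by simp; omega) (by simp; omega)
    simp only [List.get_eq_getElem, List.getElem_ofFn] at h3
    exact h3

/-- **FTH** -/
theorem s_FTH (hT : S_TAU) : S_FTH := by
  intro a K _ _ 𝓖 M N ρ ρ' hM hN hcod
  choose e he hp using fun t => piece hT hM hN hcod t
  let U : Ultrafilter ℕ := Filter.hyperfilter ℕ
  have hlarge : ∀ n : ℕ, ∀ᶠ t in (U : Filter ℕ), n ≤ t := by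
    intro n
    have h1 : ∀ᶠ t in Filter.atTop, n ≤ t := Filter.eventually_ge_atTop n
    exact Filter.Eventually.filter_mono (Nat.hyperfilter_le_atTop) h1
  -- the limit
  have hlim : ∀ x, ∃ y, ∀ᶠ t in (U : Filter ℕ), e t x = y := by
    intro x
    obtain ⟨i, hi⟩ := hM.cover x
    have h1 : ∀ᶠ t in (U : Filter ℕ), ∃ y ∈ ((lst (ρ' i)).toFinset : Set ℕ), e t x = y := by
      filter_upwards [hlarge i] with t ht
      refine ⟨e t x, ?_, rfl⟩
      simp only [List.coe_toFinset, mem_ofPred_eq]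
      exact (hp t i ht).subset (List.mem_map_of_mem hi)
    rw [Ultrafilter.eventually_exists_mem_iff (Finset.finite_toSet _)] at h1
    obtain ⟨y, _, hy⟩ := h1
    exact ⟨y, hy⟩
  choose E hE using hlim
  have hmem : ∀ x, ∀ᶠ t in (U : Filter ℕ), x ∈ {p | ∃ i ≤ t, p ∈ lst (ρ i)} := by
    intro x
    obtain ⟨i, hi⟩ := hM.cover x
    filter_upwards [hlarge i] with t ht
    exact ⟨i, ht, hi⟩
  have hinj : Injective E := by
    intro x y hxy
    obtain ⟨t, h1, h2, h3, h4⟩ := ((hE x).and ((hE y).and ((hmem x).and (hmem y)))).exists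
    exact (he t).1 h3 h4 (by rw [h1, h2, hxy])
  have hsurj : Surjective E := by
    intro y
    obtain ⟨i, hi⟩ := hN.cover y
    have h1 : ∀ᶠ t in (U : Filter ℕ), ∃ x ∈ ((lst (ρ i)).toFinset : Set ℕ), e t x = y := by
      filter_upwards [hlarge i] with t ht
      have h2 := (hp t i ht).symm.subset hi
      obtain ⟨x, hx, hxy⟩ := List.mem_map.1 h2
      exact ⟨x, by simpa using hx, hxy⟩
    rw [Ultrafilter.eventually_exists_mem_iff (Finset.finite_toSet _)] at h1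
    obtain ⟨x, _, hx⟩ := h1
    obtain ⟨t, h2, h3⟩ := (hx.and (hE x)).exists
    exact ⟨x, by rw [← h3, h2]⟩
  refine ⟨Equiv.ofBijective E ⟨hinj, hsurj⟩, fun i x => ?_⟩
  have h1 : ∀ᶠ t in (U : Filter ℕ), ∀ j, e t (x j) = E (x j) :=
    Filter.eventually_all.2 fun j => hE (x j)
  have h2 : ∀ᶠ t in (U : Filter ℕ), ∀ j, x j ∈ {p | ∃ i ≤ t, p ∈ lst (ρ i)} :=
    Filter.eventually_all.2 fun j => hmem (x j)
  obtain ⟨t, h3, h4⟩ := (h1.and h2).exists
  rw [← (he t).2 i x h4]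
  congr 1
  funext j
  exact (h3 j).symm

end Pool.Agent.L7h96.GB
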