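import Pool.Agent.L7h71.GB.Stm

/-! Project GB, part GDL: goodness is local and Borel. -/

set_option autoImplicit false

namespace Pool.Agent.L7h96.GB

open Set Function MeasureTheory
open Pool.Agent.L7h66.UA (XS XIso)
open Pool.Agent.L7h71.GB

variable {a : ℕ → ℕ} {K : ℕ → Type}

/-- goodness with the number of the points as a parameter -/
def G' (𝓖 : FamG a K) (M : XS a K ℕ) (b : Finset ℕ) (n : ℕ) : Prop :=
  ∃ u : Fin n → ℕ, Injective u ∧ (∀ j, u j ∈ b) ∧ (fun i t => M i (u ∘ t)) ∈ 𝓖 n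

theorem gd_iff (𝓖 : FamG a K) (M : XS a K ℕ) (b : Finset ℕ) : Gd 𝓖 M b ↔ G' 𝓖 M b b.card := Iff.rfl

/-- goodness is local -/
theorem gd_image (𝓖 : FamG a K) (M N : XS a K ℕ) (e : ℕ → ℕ) (b : Finset ℕ) (h : Emb M N e b) :
    Gd 𝓖 N (b.image e) ↔ Gd 𝓖 M b := by
  obtain ⟨hinj, hM⟩ := h
  have hcard : (b.image e).card = b.card := Finset.card_image_of_injOn hinj
  rw [gd_iff, gd_iff, hcard]
  constructor
  · rintro ⟨u, hu, hub, hG⟩
    have h1 : ∀ j, ∃ x ∈ b, e x = u j := fun j => Finset.mem_image.1 (hub j)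
    choose v hvb hv using h1
    refine ⟨v, fun j j' hj => hu ?_, hvb, ?_⟩
    · rw [← hv j, ← hv j', hj]
    · have : (fun i t => M i (v ∘ t)) = fun i (t : Fin (a i) → Fin b.card) => N i (u ∘ t) := by
        funext i t
        rw [← hM i (v ∘ t) (fun j => hvb _)]
        congr 1
        funext j
        exact hv _
      rw [this]
      exact hG
  · rintro ⟨u, hu, hub, hG⟩
    refine ⟨e ∘ u, fun j j' hj => hu (hinj (hub j) (hub j') hj), fun j => Finset.mem_image_of_mem e (hub j), ?_⟩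
    have : (fun i t => N i ((e ∘ u) ∘ t)) = fun i (t : Fin (a i) → Fin b.card) => M i (u ∘ t) := by
      funext i t
      exact hM i (u ∘ t) (fun j => hub _)
    rw [this]
    exact hG

/-- goodness is Borel -/
theorem gd_meas (𝓖 : FamG a K) [∀ i, MeasurableSpace (K i)] (h : ∀ n, MeasurableSet (𝓖 n)) (b : Finset ℕ) :
    MeasurableSet {M : XS a K ℕ | Gd 𝓖 M b} := by
  have h1 : {M : XS a K ℕ | Gd 𝓖 M b} = ⋃ u : Fin b.card → ℕ, {M : XS a K ℕ |
      (Injective u ∧ ∀ j, u j ∈ b) ∧ (fun i (t : Fin (a i) → Fin b.card) => M i (u ∘ t)) ∈ 𝓖 b.card} := by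
    ext M
    simp only [mem_ofPred_eq, mem_iUnion]
    constructor
    · rintro ⟨u, h1, h2, h3⟩
      exact ⟨u, ⟨h1, h2⟩, h3⟩
    · rintro ⟨u, ⟨h1, h2⟩, h3⟩
      exact ⟨u, h1, h2, h3⟩
  rw [h1]
  refine MeasurableSet.iUnion fun u => (MeasurableSet.const _).inter ?_
  have h2 : Measurable fun M : XS a K ℕ => fun i (t : Fin (a i) → Fin b.card) => M i (u ∘ t) :=
    measurable_pi_lambda _ fun i => measurable_pi_lambda _ fun t =>
      (measurable_pi_apply (u ∘ t)).comp (measurable_pi_apply i)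
  exact h2 (h _)

/-- **GDL** -/
theorem s_GDL : S_GDL := fun _ _ 𝓖 =>
  ⟨fun M N e b h => gd_image 𝓖 N M e b h, fun {_} h b => gd_meas 𝓖 h b⟩

end Pool.Agent.L7h96.GB
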